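import Pool.Agent.W528.HJ.Main
import Pool.Agent.W528.HC.MU
import Pool.Agent.W924.HC.PR
import Pool.Agent.W340.HD.IN
import Pool.Agent.W108.HD.ONE
import Pool.Agent.W940.HD.GE
import Pool.Agent.W551.HD.GN
import Pool.Agent.W110.HJ.AW
import Pool.Agent.W691.HJ.PW

set_option autoImplicit false

namespace Pool.Agent.Results.MP_97f789_ag.CoveringsOfProducts

open Polynomial Pool.Agent.W528.HC Pool.Agent.W528.HD Pool.Agent.W528.HJ

/-- **The Tate conjecture for divisors on cyclic coverings of products of curves over number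
fields.**

Let `n`, `e`, `r` be pairwise coprime with all prime factors at least `P`, `Q`, `R` respectively,
let `K` be a number field, `C' : w ^ e = ∏ (x - g_i) ^ d_i` and `B : u ^ r = ∏ h_l(t) ^ b_l` curves
over `K` (of any genus), `f_1, ..., f_m` polynomials over `K`, not all of the differences constant,
`f_i`, `h_l` of degree at most `D`, `D (∑ a_i / P + ∑ d_i / Q + ∑ b_l / R) < 1`, and `X` a smooth
projective model of the surface `y ^ n = ∏ (x - f_i(t)) ^ a_i` over `C' × B`. Outside of the
classes of fibre components and of the cohomology of `C' × B`, the second cohomology of `X` is a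
representation `V` of the Galois group `G`, the sum of the parts `W (j, s₁, s₂)`, `0 < j < n`,
`0 ≤ s₁ < e`, `0 ≤ s₂ < r`, of the characters of the roots of unity acting on `(y, w, u)`.
Let `φ` be a Frobenius element at a place with residue field `κ` of characteristic `c = 1` modulo
`n e r`, where everything has good reduction and the `g_i` are in `κ`. By the Grothendieck-Lefschetz
formula the traces of the powers of `φ` on the parts are the sums `covSum` (`CovTrace`).

Theorem: (1) the traces of the powers of `φ` on `V` are the numbers of points of the affine surface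
minus those of the product of the affine curves; (2) if `ε` is a character of `G` with
`ε φ = |κ|` (the inverse of the cyclotomic character), then a subgroup of finite index does not act
through `ε` on any nonzero subquotient `V₂ / V₁` of `V`. So all Tate classes of `X` come from fibre
components and from `C' × B`, where they are algebraic by Faltings, and the rest of `H^2(X)(1)` has
no trivial subquotient over any finite extension. -/
theorem result (n e r c D P Q R : ℕ) (hn : 2 ≤ n) (he : 0 < e) (hr : 0 < r) (hen : e.Coprime n)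
    (hrn : r.Coprime n) (her : e.Coprime r)
    (hP : ∀ l : ℕ, l.Prime → l ∣ n → P ≤ l) (hQ : ∀ l : ℕ, l.Prime → l ∣ e → Q ≤ l)
    (hR : ∀ l : ℕ, l.Prime → l ∣ r → R ≤ l)
    [Fact c.Prime] (hc : n * e * r ∣ c - 1)
    (κ : Type) [Field κ] [Fintype κ] [CharP κ c] (z : κ) (hz : IsPrimitiveRoot z (n * e * r))
    (E : Type) [Field E] [CharZero E] [IsAlgClosed E] (μ : E)
    (hμ : IsPrimitiveRoot μ (n * e * r)) (m m₁ m₂ : ℕ) (hD : 1 ≤ D)
    (f : Fin m → κ[X]) (hf : ∀ i, (f i).natDegree ≤ D) (a : Fin m → ℕ) (ha : ∀ i, 0 < a i)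
    (g : Fin m₁ → κ) (d : Fin m₁ → ℕ) (hd : ∀ i, 0 < d i)
    (h : Fin m₂ → κ[X]) (hh : ∀ l, (h l).natDegree ≤ D) (b : Fin m₂ → ℕ) (hb : ∀ l, 0 < b l)
    (hadb : D * (Q * R * ∑ i, a i + P * R * ∑ i, d i + P * Q * ∑ l, b l) < P * Q * R)
    (G : Type) [Group G] (V : Type) [AddCommGroup V] [Module E V] [FiniteDimensional E V]
    (ρ : Representation E G V) (W : Fin (n - 1) × Fin e × Fin r → Submodule E V)
    (hW : DirectSum.IsInternal W) (hstab : ∀ χ g, ∀ v ∈ W χ, ρ g v ∈ W χ)
    (φ : G) (hφ : ∀ χ, CovTrace κ n e r f a g d h b z μ (χ.1 + 1) χ.2.1 χ.2.2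
      ((ρ φ).restrict (hstab χ φ))) :
    (∀ (L : Type) [Field L] [Fintype L] [Algebra κ L],
      LinearMap.trace E V ((ρ φ) ^ Module.finrank κ L)
        = (covPts L n e r (fun i => (f i).map (algebraMap κ L)) a
            (fun i => algebraMap κ L (g i)) d (fun l => (h l).map (algebraMap κ L)) b : E)
          - (linePts L e (fun i => algebraMap κ L (g i)) d : E)
            * (basePts L r (fun l => (h l).map (algebraMap κ L)) b : E)) ∧
    ∀ (ε : G →* E), ε φ = Fintype.card κ → ∀ (H : Subgroup G), H.FiniteIndex →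
      ∀ V₁ V₂ : Submodule E V, V₁ ≤ V₂ → (∀ g ∈ H, ∀ v ∈ V₂, ρ g v - ε g • v ∈ V₁) →
        V₁ = V₂ :=
  fin_cov Pool.Agent.W551.HD.GN.main
    (Pool.Agent.W108.HD.ONE.main Pool.Agent.W551.HD.GN.main Pool.Agent.W340.HD.IN.main
      Pool.Agent.W135.HB.SA.main)
    Pool.Agent.W940.HD.GE.main Pool.Agent.W110.HJ.AW.main
    (Pool.Agent.W691.HJ.PW.main Pool.Agent.W924.HC.PR.main mu_main)
    hn he hr hen hrn her hP hQ hR hc κ hz hμ hD f hf a ha g d hd h hh b hb hadb ρ W hW hstab φ hφ

end Pool.Agent.Results.MP_97f789_ag.CoveringsOfProducts
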