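import Pool.Agent.Results.MP_1d384c_nt.PolynomialCoverings
import Pool.Agent.W959.NF.Base

set_option autoImplicit false

/-!
# The Tate conjecture for divisors over number fields on superelliptic fibrations over
superelliptic curves

Let `K` be a number field, `p ≠ r` primes, `f_1, ..., f_m`, `h_1, ..., h_n` polynomials of degree at
most `D` over the ring of integers of `K`, not all `h_l` and not all differences `f_i - f_j`
constant, `a_i, b_l > 0` and `D (∑ a_i / p + ∑ b_l / r) < 1`. Let `B` be the curve
`u ^ r = ∏ h_l(t) ^ b_l` and let `X → B` be a smooth projective model of the surface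
`y ^ p = ∏ (x - f_i(t)) ^ a_i` over `B`.

For a prime `P` of good reduction outside a finite set, with the residue field `k`, the
`ℓ`-adic cohomology of `X` is that of its reduction (smooth base change). Let `V` be the quotient of
`H ^ 2(X, E(1))`, `E` an algebraic closure of `ℚ_ℓ`, by the classes of divisors. If `k` contains
the `p r`-th roots of unity, then the geometric Frobenius at `P` acts on `V` with eigenvalues
`x / |k|`, where `x` is one of the numbers in the multisets `A j s`, `0 < j < p`, `0 ≤ s < r`,
such that `∏_{x ∈ A j s} (1 - x T)` is the L-function of the character `(j, s)` of the reduction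
(Grothendieck): this is `IsPolyL2`. This is what `IsTranscendentalPart` says about a representation
`V` of the absolute Galois group of `K`.

Theorem: no subquotient of `V`, restricted to a subgroup of finite index of the absolute Galois
group, is a nonzero trivial representation. So there are no Galois invariant classes besides
those of divisors: the Tate conjecture for divisors holds for `X` over all finite extensions of `K`.

Proof: by Dirichlet's theorem there are infinitely many `P` of residue characteristic
`1` modulo `p r`; for the reduction modulo such a `P` the theorem over finite fields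
(`PolynomialCoverings` of helper528) says that no `x` is `|k|` times a root of unity.
-/

open Polynomial Pool.Agent.W528.HC Pool.Agent.W528.HD NumberField

namespace Pool.Agent.Results.MP_97f789_ag.SuperellipticFibrations

/-- The absolute Galois group of `K`. -/
abbrev GK (K : Type) [Field K] : Type := AlgebraicClosure K ≃ₐ[K] AlgebraicClosure K

/-- `V` is a representation of the absolute Galois group of the number field `K` with the
Frobenius eigenvalues of the part of `H ^ 2(1)` not coming from divisors of the surface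
`y ^ p = ∏ (x - f_i(t)) ^ a_i`, `u ^ r = ∏ h_l(t) ^ b_l`: for all ideals `P` outside a finite
set and every surjective homomorphism `π` with kernel `P` from the ring of integers to a finite
field `k` with a primitive `p r`-th root of unity `z`, there are an element `g` of the Galois group
(the geometric Frobenius at `P`) and multisets `A j s` such that `∏_{x ∈ A j s} (1 - x T)` is the
L-function of the character `(j, s)` of the reduction modulo `P`, and every eigenvalue of `g` on `V`
is `x / |k|` for some `x ∈ A j s`, `0 < j < p`, `0 ≤ s < r`. -/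
def IsTranscendentalPart (K : Type) [Field K] [NumberField K] {E : Type} [Field E] (p r : ℕ)
    {m n : ℕ} (f : Fin m → (𝓞 K)[X]) (a : Fin m → ℕ) (h : Fin n → (𝓞 K)[X]) (b : Fin n → ℕ)
    (μ : E) {V : Type} [AddCommGroup V] [Module E V] (ρ : Representation E (GK K) V) : Prop :=
  ∃ S : Set (Ideal (𝓞 K)), S.Finite ∧ ∀ P : Ideal (𝓞 K), P ∉ S →
    ∀ (k : Type) [Field k] [Fintype k] (π : 𝓞 K →+* k), Function.Surjective π →
      RingHom.ker π = P → ∀ z : k, IsPrimitiveRoot z (p * r) →
      ∃ (g : GK K) (A : ℕ → ℕ → Multiset E),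
        (∀ j s, 0 < j → j < p → s < r →
          IsPolyL2 k p r (fun i => (f i).map π) a (fun l => (h l).map π) b z μ j s (A j s)) ∧
        ∀ v : E, Module.End.HasEigenvalue (ρ g) v →
          ∃ j s, 0 < j ∧ j < p ∧ s < r ∧ v * (Fintype.card k : E) ∈ A j s

lemma lPoly_eval_eq_zero {E : Type} [Field E] {p r : ℕ} {A : ℕ → ℕ → Multiset E} {j s : ℕ}
    (hj : 0 < j) (hjp : j < p) (hs : s < r) {x y : E} (hx : x ∈ A j s) (hxy : x * y = 1) :
    (lPoly p r A).eval y = 0 := by
  unfold lPoly
  rw [eval_prod]
  refine Finset.prod_eq_zero (Finset.mem_Ico.2 ⟨hj, hjp⟩) ?_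
  rw [eval_prod]
  refine Finset.prod_eq_zero (Finset.mem_range.2 hs) ?_
  rw [Polynomial.eval_multiset_prod, Multiset.map_map]
  refine Multiset.prod_eq_zero (Multiset.mem_map.2 ⟨x, hx, ?_⟩)
  simp [hxy]

/-- **The Tate conjecture for divisors over number fields**: the transcendental part of
`H ^ 2(X, E(1))`, restricted to a subgroup of finite index of the Galois group, has no nonzero
trivial subquotient. -/
theorem result (K : Type) [Field K] [NumberField K] (p r D : ℕ) (hp : p.Prime) (hr : r.Prime)
    (hpr : p ≠ r) (m n : ℕ) (hD : 1 ≤ D) (f : Fin m → (𝓞 K)[X]) (hf : ∀ i, (f i).natDegree ≤ D)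
    (a : Fin m → ℕ) (h : Fin n → (𝓞 K)[X]) (hh : ∀ l, (h l).natDegree ≤ D) (b : Fin n → ℕ)
    (ha : ∀ i, 0 < a i) (hb : ∀ l, 0 < b l)
    (hab : D * (r * ∑ i, a i + p * ∑ l, b l) < p * r)
    (E : Type) [Field E] [CharZero E] [IsAlgClosed E] (μ : E) (hμ : IsPrimitiveRoot μ (p * r))
    (V : Type) [AddCommGroup V] [Module E V] [FiniteDimensional E V]
    (ρ : Representation E (GK K) V) (hρ : IsTranscendentalPart K p r f a h b μ ρ)
    (H : Subgroup (GK K)) (hH : H.FiniteIndex) (W₁ W₂ : Submodule E V) (h12 : W₁ ≤ W₂)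
    (hW : ∀ g ∈ H, ∀ w ∈ W₂, ρ g w - w ∈ W₁) : W₁ = W₂ := by
  obtain ⟨S, hS, hS2⟩ := hρ
  have hN : 0 < p * r := Nat.mul_pos hp.pos hr.pos
  obtain ⟨c, P, hc, hcN, hP, hcP, hPS⟩ := Pool.Agent.W959.NF.exP K (p * r) hN S hS
  have : P.IsMaximal := hP
  have : Fact c.Prime := ⟨hc⟩
  let _ : Field (𝓞 K ⧸ P) := Ideal.Quotient.field P
  let _ : Fintype (𝓞 K ⧸ P) := Fintype.ofFinite _
  have hc0 : ((c : ℕ) : 𝓞 K ⧸ P) = 0 := by
    have := (Ideal.Quotient.eq_zero_iff_mem (I := P)).2 hcP
    simpa using this
  have : CharP (𝓞 K ⧸ P) c := by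
    have h1 : ringChar (𝓞 K ⧸ P) = c := CharP.ringChar_of_prime_eq_zero hc hc0
    rw [← h1]
    exact ringChar.charP _
  have hdvd : p * r ∣ c - 1 := (Nat.modEq_iff_dvd' hc.one_lt.le).1 hcN.symm
  obtain ⟨z, hz⟩ := Pool.Agent.W959.NF.prim (𝓞 K ⧸ P) c (p * r) hdvd
  obtain ⟨g, A, hA, hev⟩ := hS2 P hPS (𝓞 K ⧸ P) (Ideal.Quotient.mk P)
    Ideal.Quotient.mk_surjective Ideal.mk_ker z hz
  have hfin := (MP_1d384c_nt.PolynomialCoverings.result p r c D hp hr hpr hdvd (𝓞 K ⧸ P) z hz E μ hμ
    m n hD (fun i => (f i).map (Ideal.Quotient.mk P))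
    (fun i => natDegree_map_le.trans (hf i)) a (fun l => (h l).map (Ideal.Quotient.mk P))
    (fun l => natDegree_map_le.trans (hh l)) b ha hb hab A hA).2
  have hcard : (Fintype.card (𝓞 K ⧸ P) : E) ≠ 0 := Nat.cast_ne_zero.2 Fintype.card_ne_zero
  have hT : ∀ v : E, Module.End.HasEigenvalue (ρ g) v → ∀ M : ℕ, 0 < M → v ^ M ≠ 1 := by
    intro v hv M hM hvM
    obtain ⟨j, s, hj, hjp, hs, hx⟩ := hev v hv
    have hv0 : v ≠ 0 := by
      rintro rfl
      rw [zero_pow hM.ne'] at hvM
      exact zero_ne_one hvM
    refine hfin (v⁻¹) M hM (by rw [inv_pow, hvM, inv_one]) ?_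
    refine lPoly_eval_eq_zero hj hjp hs hx ?_
    field_simp
  obtain ⟨e, he0, -, he⟩ := H.exists_pow_mem_of_index_ne_zero hH.index_ne_zero g
  refine Pool.Agent.W959.NF.subq (ρ g) hT he0 h12 fun w hw => ?_
  have := hW (g ^ e) he w hw
  rwa [map_pow] at this

end Pool.Agent.Results.MP_97f789_ag.SuperellipticFibrations
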